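import Pool.Agent.W2helper58.NT.Stm
import Pool.Agent.NPC.Dec

/-!
# Piece NT-NPF: the explicit function `AnyMatching` is in NP
-/

set_option autoImplicit false

namespace Pool.Agent.W2helper17.NT

open Pool.Agent.NPC Pool.Agent.W2helper58.NT

/-- certificates: region, block, permutation -/
abbrev Cert : Type := ℕ × ℕ × List ℕ

/-- the logarithm, by the number of bits -/
def lg (n : ℕ) : ℕ := n.bits.length - 1

theorem lg_eq (n : ℕ) : lg n = Nat.log 2 n := by
  unfold lg
  rw [Nat.size_eq_bits_len]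
  rcases Nat.eq_zero_or_pos n with h | h
  · subst h
    simp
  · have h1 : 0 < n.size := Nat.size_pos.2 h
    have h2 : 2 ^ (n.size - 1) ≤ n := Nat.lt_size.1 (by omega)
    have h3 : n < 2 ^ n.size := Nat.lt_size_self n
    symm
    rw [Nat.log_eq_iff (Or.inr ⟨by norm_num, by omega⟩)]
    refine ⟨h2, ?_⟩
    rwa [Nat.sub_add_cancel h1]

/-- a power of two -/
def pw (e n : ℕ) : ℕ := valB (List.replicate (min e n) false ++ [true])

theorem pw_eq (e n : ℕ) : pw e n = 2 ^ (min e n) := by
  unfold pw
  rw [valB_replicate_false]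
  simp

section

variable {α : Type} [TEnc α]

theorem poly_lg {n : α → ℕ} (hn : NPC.Poly n) : NPC.Poly (fun a => lg (n a)) :=
  NPC.Poly.sub (NPC.Poly.length (NPC.Poly.natBits hn)) (NPC.Poly.const 1)

theorem poly_pw {e : α → ℕ} {l : α → List Bool} (he : NPC.Poly e) (hl : NPC.Poly l) :
    NPC.Poly (fun a => pw (e a) (l a).length) := by
  have h1 : UPoly (fun a => min (e a) (l a).length) :=
    UPoly.of_le (NPC.Poly.min he (NPC.Poly.length hl)) (UPoly.length hl) (fun a => min_le_right _ _)
  have h2 : NPC.Poly (fun a => List.replicate (min (e a) (l a).length) false) :=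
    (NPC.Poly.map (F := fun _ _ => false) h1 (NPC.Poly.const false)).congr fun a => by simp
  exact NPC.Poly.valBits (NPC.Poly.append h2 (NPC.Poly.const [true]))

end

/-- the verifier -/
def chk (q : List Bool × Cert) : Bool :=
  decide (q.2.1 < lg q.1.length) &&
  (decide (q.2.2.2.length = pw q.2.1 q.1.length) &&
  (decide ((q.2.2.1 + 1) * (pw q.2.1 q.1.length * pw q.2.1 q.1.length) ≤
    q.1.length / lg q.1.length) &&
  ((List.range q.2.2.2.length).all (fun v => decide (v ∈ q.2.2.2)) &&
  (List.range q.2.2.2.length).all (fun u => q.1.getD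
    (q.2.1 * (q.1.length / lg q.1.length) + (q.2.2.1 * (q.2.2.2.length * q.2.2.2.length) +
      u * q.2.2.2.length + q.2.2.2.getD u 0)) false))))

theorem poly_chk : NPC.Poly chk := by
  have hx : NPC.Poly (fun q : List Bool × Cert => q.1) := NPC.Poly.fst NPC.Poly.id
  have he : NPC.Poly (fun q : List Bool × Cert => q.2.1) := NPC.Poly.fst (NPC.Poly.snd NPC.Poly.id)
  have hJ : NPC.Poly (fun q : List Bool × Cert => q.2.2.1) := NPC.Poly.fst (NPC.Poly.snd (NPC.Poly.snd NPC.Poly.id))
  have hs : NPC.Poly (fun q : List Bool × Cert => q.2.2.2) := NPC.Poly.snd (NPC.Poly.snd (NPC.Poly.snd NPC.Poly.id))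
  have hn := NPC.Poly.length hx
  have hk := NPC.Poly.length hs
  have hl := poly_lg hn
  have hm := NPC.Poly.div hn hl
  have hp := poly_pw he hx
  refine NPC.Poly.and (NPC.Poly.decide_lt he hl) (NPC.Poly.and (NPC.Poly.decide_eq hk hp) (NPC.Poly.and
    (NPC.Poly.decide_le (NPC.Poly.mul (NPC.Poly.succ hJ) (NPC.Poly.mul hp hp)) hm) (NPC.Poly.and ?_ ?_)))
  · exact NPC.Poly.all (p := fun (q : List Bool × Cert) v => decide (v ∈ q.2.2.2))
      (NPC.Poly.range_length hs) (NPC.Poly.decide_mem (NPC.Poly.snd NPC.Poly.id) (hs.comp (NPC.Poly.fst NPC.Poly.id)))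
  · refine NPC.Poly.all (p := fun (q : List Bool × Cert) u => q.1.getD
      (q.2.1 * (q.1.length / lg q.1.length) + (q.2.2.1 * (q.2.2.2.length * q.2.2.2.length) +
        u * q.2.2.2.length + q.2.2.2.getD u 0)) false) (NPC.Poly.range_length hs) ?_
    have f : NPC.Poly (fun p : (List Bool × Cert) × ℕ => p.1) := NPC.Poly.fst NPC.Poly.id
    have hu : NPC.Poly (fun p : (List Bool × Cert) × ℕ => p.2) := NPC.Poly.snd NPC.Poly.id
    refine NPC.Poly.getD (hx.comp f) ?_ (NPC.Poly.const false)
    refine NPC.Poly.add (NPC.Poly.mul (he.comp f) (hm.comp f)) (NPC.Poly.add (NPC.Poly.add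
      (NPC.Poly.mul (hJ.comp f) (NPC.Poly.mul (hk.comp f) (hk.comp f))) (NPC.Poly.mul hu (hk.comp f))) ?_)
    exact NPC.Poly.getD (hs.comp f) hu (NPC.Poly.const 0)

theorem chk_sound {x : List Bool} {c : Cert} (h : chk (x, c) = true) : x ∈ Lang := by
  obtain ⟨e, J, s⟩ := c
  unfold chk at h
  simp only [Bool.and_eq_true, decide_eq_true_eq, List.all_eq_true, List.mem_range] at h
  obtain ⟨h1, h2, h3, h4, h5⟩ := h
  rw [lg_eq] at h1 h3
  have hmin : min e x.length = e := by
    apply min_eq_left
    exact h1.le.trans (Nat.log_le_self 2 _)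
  rw [pw_eq, hmin] at h2 h3
  -- the list is a permutation
  have hperm : ∀ u < s.length, s.getD u 0 < s.length := by
    have hsub : List.range s.length ⊆ s := by
      intro v hv
      exact h4 v (List.mem_range.1 hv)
    have hsp : (List.range s.length).Subperm s := List.nodup_range.subperm hsub
    have hp : (List.range s.length).Perm s := hsp.perm_of_length_le (by simp)
    intro u hu
    rw [List.getD_eq_getElem _ _ hu]
    exact List.mem_range.1 (hp.mem_iff.2 (List.getElem_mem hu))
  set f : Fin (2 ^ e) → Fin (2 ^ e) := fun u =>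
    ⟨s.getD u.val 0, lt_of_lt_of_eq (hperm _ (lt_of_lt_of_eq u.isLt h2.symm)) h2⟩ with hf
  have hsurj : Function.Surjective f := by
    intro v
    have hv := h4 v.val (by rw [h2]; exact v.isLt)
    obtain ⟨u, hu, huv⟩ := List.getElem_of_mem hv
    refine ⟨⟨u, lt_of_lt_of_eq hu h2⟩, ?_⟩
    apply Fin.ext
    simp only [hf]
    rw [List.getD_eq_getElem _ _ hu]
    exact huv
  refine ⟨e, h1, J, ?_, Equiv.ofBijective f (Finite.surjective_iff_bijective.1 hsurj), ?_⟩
  · rw [pow_two]
    exact h3
  · intro u p hp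
    have h6 := h5 u.val (by rw [h2]; exact u.isLt)
    have h7 : (Equiv.ofBijective f (Finite.surjective_iff_bijective.1 hsurj) u).val =
        s.getD u.val 0 := rfl
    rw [h7] at hp
    rw [lg_eq, h2, ← pow_two, ← hp, List.getD_eq_getElem _ _ p.isLt] at h6
    exact h6

theorem chk_complete {x : List Bool} (h : x ∈ Lang) : ∃ c : Cert,
    sz c ≤ (Polynomial.C 4 * Polynomial.X ^ 2 + Polynomial.C 10 * Polynomial.X +
      Polynomial.C 5 : Polynomial ℕ).eval x.length ∧ chk (x, c) = true := by
  obtain ⟨e, he, J, hJ, σ, hσ⟩ := h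
  set n := x.length with hn
  have he2 : 2 ^ e ≤ n := by
    have h0 : n ≠ 0 := by
      rintro h0
      rw [h0] at he
      simp at he
    exact (Nat.pow_le_pow_right (by norm_num) he.le).trans (Nat.pow_log_le_self 2 h0)
  have hen : e ≤ n := (Nat.lt_two_pow_self).le.trans he2
  have hJn : J ≤ n := by
    have h1 : J + 1 ≤ (J + 1) * (2 ^ e) ^ 2 := Nat.le_mul_of_pos_right _ (by positivity)
    have h2 : n / Nat.log 2 n ≤ n := Nat.div_le_self _ _
    omega
  set s : List ℕ := List.ofFn (fun u : Fin (2 ^ e) => (σ u).val) with hs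
  have hslen : s.length = 2 ^ e := by simp [hs]
  have hsget : ∀ (u : ℕ) (hu : u < 2 ^ e), s.getD u 0 = (σ ⟨u, hu⟩).val := by
    intro u hu
    rw [List.getD_eq_getElem _ _ (by rw [hslen]; exact hu)]
    simp [hs]
  refine ⟨(e, J, s), ?_, ?_⟩
  · have s1 : sz e ≤ 4 * n + 1 := by
      have := sz_nat_le e
      have := NPC.Poly.size_le_self e
      omega
    have s2 : sz J ≤ 4 * n + 1 := by
      have := sz_nat_le J
      have := NPC.Poly.size_le_self J
      omega
    have s3 : sz s ≤ n * (4 * n + 2) + 1 := by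
      have := sz_le_length_mul s (4 * n + 1) (by
        intro a ha
        rw [hs, List.mem_ofFn] at ha
        obtain ⟨u, rfl⟩ := ha
        have h1 := sz_nat_le (σ u).val
        have h2 := NPC.Poly.size_le_self (σ u).val
        have h3 := (σ u).isLt
        omega)
      refine this.trans ?_
      rw [hslen]
      exact Nat.add_le_add_right (Nat.mul_le_mul_right _ he2) 1
    simp only [sz_pair, Polynomial.eval_add, Polynomial.eval_mul, Polynomial.eval_pow,
      Polynomial.eval_X, Polynomial.eval_C]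
    nlinarith
  · unfold chk
    simp only [Bool.and_eq_true, decide_eq_true_eq, List.all_eq_true, List.mem_range]
    have hmin : min e n = e := min_eq_left hen
    rw [lg_eq, pw_eq, ← hn, hmin, hslen]
    refine ⟨he, rfl, ?_, ?_, ?_⟩
    · rw [← pow_two]
      exact hJ
    · intro v hv
      rw [hs, List.mem_ofFn]
      exact ⟨σ.symm ⟨v, hv⟩, by simp⟩
    · intro u hu
      rw [hsget u hu]
      have hlt := blk_lt hJ ⟨u, hu⟩ (σ ⟨u, hu⟩)
      have hreg := region_le he
      have hpos : e * (n / Nat.log 2 n) +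
          (J * (2 ^ e) ^ 2 + u * 2 ^ e + (σ ⟨u, hu⟩).val) < n := by
        have hlt' : J * (2 ^ e) ^ 2 + u * 2 ^ e + (σ ⟨u, hu⟩).val < n / Nat.log 2 n := hlt
        omega
      have h1 := hσ ⟨u, hu⟩ ⟨_, hpos⟩ rfl
      rw [← pow_two, List.getD_eq_getElem _ _ hpos]
      exact h1

theorem p_NPF : P_NPF := by
  refine ⟨_, Polynomial.C 4 * Polynomial.X ^ 2 + Polynomial.C 10 * Polynomial.X + Polynomial.C 5,
    polyTime_of_poly (NPC.Poly.optCases (g := fun _ => false)
      (h := fun y c => chk ((unpair y).1, c)) (poly_unbits.comp (NPC.Poly.snd poly_unpair))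
      (NPC.Poly.const _) (poly_chk.comp (NPC.Poly.pair ((NPC.Poly.fst poly_unpair).comp
      (NPC.Poly.fst NPC.Poly.id)) (NPC.Poly.snd NPC.Poly.id)))), ?_⟩
  · intro x
    constructor
    · intro hx
      obtain ⟨c, hc, hchk⟩ := chk_complete hx
      refine ⟨bits c, by rw [bits_length]; exact hc, ?_⟩
      simp only [unpair_pairBits, unbits_bits, hchk]
    · rintro ⟨w, -, hw⟩
      simp only [unpair_pairBits] at hw
      cases hu : unbits Cert w with
      | none => rw [hu] at hw; simp at hw
      | some c =>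
        rw [hu] at hw
        simp only [List.cons.injEq, and_true] at hw
        exact chk_sound hw

end Pool.Agent.W2helper17.NT
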